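import Pool.Agent.Helper78.JT.Goals
import Pool.Agent.Helper9.DT.FOO
import Pool.Agent.Helper78.DT.Final

/-!
# JT-FOJ: good strings fool all tuples of decision lists of width `t`
-/

namespace Pool.Agent.Helper17.JT

open scoped Classical
open Pool.Agent.Helper78.DT
open Pool.Agent.Helper78.JT
open Pool.Agent.Helper9.DT (pr_upper pr_lower hs_lt)

theorem foj (hBrj : BrjStmt) (hRnj : RnjStmt) : FojStmt := by
  intro P q r t s e n η κ δ H z hP hq hη hη1 hκ hs1 hn hδ hG f hf
  have hP0 : 0 < P := hP.pos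
  have : Nonempty (Fin P) := ⟨⟨0, hP0⟩⟩
  have h2t : (0 : ℝ) < 2 ^ t := by positivity
  have hk : 0 < κ / 2 ^ t := by positivity
  obtain ⟨hB1, -⟩ := hBrj (Fin n) η (κ / 2 ^ t) t r hη hη1 hk
  obtain ⟨g, hsub, hlen, hbr⟩ := hB1 f hf
  have hkk : (2 : ℝ) ^ t * (κ / 2 ^ t) = κ := by field_simp
  rw [hkk] at hbr
  have hwg : ∀ j, Wid t (g j) := fun j p hp => hf j p ((hsub j).subset hp)
  have hgs : ∀ j, (g j).length ≤ s := by
    intro j
    have h1 : ((g j).length : ℝ) * (κ / 2 ^ t) ^ η ≤ s * (κ / 2 ^ t) ^ η := (hlen j).trans hs1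
    have h2 : 0 < (κ / 2 ^ t) ^ η := Real.rpow_pos_of_pos hk η
    exact_mod_cast le_of_mul_le_mul_right h1 h2
  -- the exceptional event
  have hbad : pr (BadJ t κ g) ≤ r * ((s + 1) * (κ ^ (1 - η) * (2 / η) ^ t)) :=
    (hBrj (Fin n) η κ t r hη hη1 hκ).2 s g hgs
  -- few variables
  have hvars : (varsJ g).ncard ≤ r * (t * s) := by
    obtain ⟨-, -, -, -, h⟩ := hRnj (Fin n) (Fin n) id r t s κ H g
    exact h fun j => ⟨hwg j, hgs j⟩
  set S : Set ℕ := (fun v : Fin n => (v : ℕ)) '' varsJ g with hSdef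
  have hSfin : S.Finite := (Set.toFinite (varsJ g)).image _
  have hScard : S.ncard ≤ r * (t * s) :=
    (Set.ncard_image_le (Set.toFinite (varsJ g))).trans hvars
  have hSlt : ∀ v ∈ S, v < 2 ^ e := by
    rintro v ⟨w, _, rfl⟩
    exact lt_of_lt_of_le w.2 hn
  have hinj := inj P e (r * (t * s)) hP S hSlt hSfin hScard
  set B : Fin P → Prop := fun w => ¬ Set.InjOn (fun v => hs P e w v) S with hBdef
  -- the renamings
  have hmain : ∀ w : Fin P, ¬ B w →
      (|pr (fun a : Fin q => loJ H t κ g (fun v => z a (hs P e w v))) - pr (loJ H t κ g)| ≤ δ) ∧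
      (|pr (fun a : Fin q => hiJ H t κ g (fun v => z a (hs P e w v))) - pr (hiJ H t κ g)| ≤
        δ) := by
    intro w hw
    have hw' : Set.InjOn (fun v => hs P e w v) S := by
      by_contra h
      exact hw h
    let π : Fin n → Fin P := fun v => ⟨hs P e w v, hs_lt hP0 e w v⟩
    have hπ : Set.InjOn π (varsJ g) := by
      intro v hv u hu hvu
      have h1 : hs P e w v = hs P e w u := congrArg Fin.val hvu
      have h2 : (v : ℕ) = (u : ℕ) :=
        hw' (Set.mem_image_of_mem _ hv) (Set.mem_image_of_mem _ hu) h1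
      exact Fin.ext h2
    obtain ⟨hr, r5, -⟩ := hRnj (Fin n) (Fin P) π r t s κ H g
    obtain ⟨r1, r2, r3, r4⟩ := hr hπ
    have hgood := hG (fun j => ren π (g j))
      (fun j => ⟨(r5 j).1 (hwg j), by rw [(r5 j).2]; exact hgs j⟩)
    rw [r3, r4] at hgood
    have e1 : (fun a : Fin q => loJ H t κ (fun j => ren π (g j)) fun u => z a u) =
        fun a : Fin q => loJ H t κ g (fun v => z a (hs P e w v)) := by
      funext a
      exact propext (r1 fun u => z a u)
    have e2 : (fun a : Fin q => hiJ H t κ (fun j => ren π (g j)) fun u => z a u) =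
        fun a : Fin q => hiJ H t κ g (fun v => z a (hs P e w v)) := by
      funext a
      exact propext (r2 fun u => z a u)
    rw [e1, e2] at hgood
    exact hgood
  -- the averages
  have hup : pr (fun p : Fin q × Fin P =>
      hiJ H t κ g (fun v => z p.1 (hs P e p.2 v))) ≤ (pr (hiJ H t κ g) + δ) + pr B := by
    refine pr_upper _ B _ ?_ ?_
    · have := pr_nonneg (hiJ H t κ g)
      linarith
    · intro w hw
      have := (abs_le.mp (hmain w hw).2).2
      linarith
  have hlow : pr (loJ H t κ g) - δ ≤ pr (fun p : Fin q × Fin P =>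
      loJ H t κ g (fun v => z p.1 (hs P e p.2 v))) + pr B := by
    refine pr_lower _ B _ ?_ ?_
    · have := pr_le_one (loJ H t κ g)
      linarith
    · intro w hw
      have := (abs_le.mp (hmain w hw).1).1
      linarith
  have himp1 : ∀ x : Fin n → Bool, H (fun j => ev (f j) x) = true → hiJ H t κ g x := by
    intro x hx
    by_cases hb : BadJ t κ g x
    · exact Or.inr hb
    · refine Or.inl ?_
      have h := hbr x hb
      have e : (fun j => ev (g j) x) = fun j => ev (f j) x := funext fun j => (h j).symm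
      rw [e]
      exact hx
  have himp2 : ∀ x : Fin n → Bool, loJ H t κ g x → H (fun j => ev (f j) x) = true := by
    rintro x ⟨hx, hb⟩
    have h := hbr x hb
    have e : (fun j => ev (f j) x) = fun j => ev (g j) x := funext h
    rw [e]
    exact hx
  have hup2 : pr (fun p : Fin q × Fin P =>
        H (fun j => ev (f j) fun v => z p.1 (hs P e p.2 v)) = true) ≤
      pr (fun p : Fin q × Fin P => hiJ H t κ g (fun v => z p.1 (hs P e p.2 v))) :=
    pr_mono fun p hp => himp1 _ hp
  have hlow2 : pr (fun p : Fin q × Fin P =>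
      loJ H t κ g (fun v => z p.1 (hs P e p.2 v))) ≤ pr (fun p : Fin q × Fin P =>
        H (fun j => ev (f j) fun v => z p.1 (hs P e p.2 v)) = true) :=
    pr_mono fun p hp => himp2 _ hp
  have hup3 : pr (hiJ H t κ g) ≤
      pr (fun x => H (fun j => ev (f j) x) = true) + pr (BadJ t κ g) := by
    refine pr_le_add_of_imp fun x hx => ?_
    by_cases hb1 : BadJ t κ g x
    · exact Or.inr hb1
    · refine Or.inl (himp2 x ⟨?_, hb1⟩)
      rcases hx with hx | hx
      · exact hx
      · exact absurd hx hb1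
  have hlow3 : pr (fun x => H (fun j => ev (f j) x) = true) ≤
      pr (loJ H t κ g) + pr (BadJ t κ g) := by
    refine pr_le_add_of_imp fun x hx => ?_
    by_cases hb1 : BadJ t κ g x
    · exact Or.inr hb1
    · refine Or.inl ⟨?_, hb1⟩
      rcases himp1 x hx with hx | hx
      · exact hx
      · exact absurd hx hb1
  have hB : pr B ≤ ((r * (t * s) : ℕ) : ℝ) ^ 2 * e / P := hinj
  unfold erj
  rw [abs_le]
  constructor
  · linarith
  · linarith

end Pool.Agent.Helper17.JT
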